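import Pool.Agent.H45.Hide

open Set Filter Topology Pool.Agent.H45.Hide

namespace Pool.Agent.Results.MP_ec84ce_an.Equiv

variable {X : Type*} [AddCommGroup X] [Module ℝ X]

/-- `C` hides `A` -/
def Hides (C A : Set X) : Prop := ∀ a ∈ A, ∀ b ∈ A, a ≠ b → (segment ℝ a b ∩ C).Nonempty

/-- `C` is polyhedric in `D` -/
def Polyhedric (C D : Set X) : Prop := ∃ (n : ℕ) (H : Fin n → Set X), C = ⋂ i, H i ∧
  ∀ i, H i ⊆ D ∧ Convex ℝ (H i) ∧ Convex ℝ (D \ H i)

lemma easy {C D : Set X} (h : Polyhedric C (D ∩ affineSpan ℝ C)) {A : Set X} (hA : A ⊆ D \ C) (hi : A.Infinite) :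
    ¬ Hides C A := fun hh => by
  obtain ⟨n, H, e, h⟩ := h
  rcases infinite_union.1 ((inter_union_sdiff A (affineSpan ℝ C)).symm ▸ hi) with hi | hi
  · have : ∀ a : X, a ∉ C → ∃ i, a ∉ H i := fun a h => by simpa [e] using h
    choose f hf using fun a : (A ∩ affineSpan ℝ C : Set X) => this a (hA a.2.1).2
    have := hi.to_subtype
    obtain ⟨a, b, ne, ef⟩ := Finite.exists_ne_map_eq_of_infinite f
    obtain ⟨z, z1, z2⟩ := hh a a.2.1 b b.2.1 (Subtype.coe_ne_coe.2 ne)
    exact ((h (f a)).2.2.segment_subset ⟨⟨(hA a.2.1).1, a.2.2⟩, hf a⟩ ⟨⟨(hA b.2.1).1, b.2.2⟩, ef ▸ hf b⟩ z1).2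
      (mem_iInter.1 (e ▸ z2) _)
  let a := hi.natEmbedding
  have k : ∀ i j, i ≠ j → ∃ s t : ℝ, 0 ≤ s ∧ 0 ≤ t ∧ s + t = 1 ∧ s • (a i : X) + t • (a j : X) ∈ C := fun i j ne =>
    let ⟨_, ⟨s, t, h1, h2, h3, rfl⟩, h⟩ := hh _ (a i).2.1 _ (a j).2.1 (Subtype.coe_ne_coe.2 (a.injective.ne ne))
    ⟨s, t, h1, h2, h3, h⟩
  obtain ⟨_, _, -, -, -, ho⟩ := k 0 1 zero_ne_one
  set o := (_ : X) + _
  have oS := subset_affineSpan ℝ C ho
  obtain ⟨f, f1, f2⟩ := (affineSpan ℝ C).direction.exists_dual_map_eq_bot_of_notMem (x := a 0 - o)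
    (fun h => (a 0).2.2 (by simpa using AffineSubspace.vadd_mem_of_mem_direction h oS)) inferInstance
  have k' : ∀ i j, i ≠ j → f (a i - o) ≠ 0 → f (a i - o) * f (a j - o) < 0 := fun i j ne h0 => by
    obtain ⟨s, t, h1, h2, h3, h⟩ := k i j ne
    have := f2.le (Submodule.mem_map_of_mem
      (AffineSubspace.vsub_mem_direction (subset_affineSpan ℝ C h) oS))
    rw [Submodule.mem_bot, vsub_eq_sub, show s • (a i : X) + t • (a j : X) - o = s • (a i - o) + t • (a j - o) by
      rw [smul_sub, smul_sub, sub_add_sub_comm, ← add_smul, h3, one_smul], map_add, map_smul, map_smul,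
      smul_eq_mul, smul_eq_mul] at this
    have s0 : 0 < s := h1.lt_of_ne fun e => (hA (a j).2.1).2 (by simpa [← e, show t = 1 by linarith] using h)
    by_contra! c
    have := congrArg (f (a i - o) * ·) this
    nlinarith [mul_pos s0 (mul_self_pos.2 h0), mul_nonneg h2 c]
  have h1 := k' 0 1 zero_ne_one f1
  have h2 := k' 0 2 two_ne_zero.symm f1
  have h3 := k' 1 2 (by decide) fun e => by simp [e] at h1
  nlinarith [mul_pos_of_neg_of_neg h1 h2, mul_self_pos.2 f1]

variable [MetricSpace X] [CompleteSpace X] [IsTopologicalAddGroup X] [ContinuousSMul ℝ X]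

lemma core {C : Set X} (c1 : IsClosed C) (c2 : Convex ℝ C) {o : X} (ho : o ∈ C) (v : ℕ → X) (hv : ∀ n, o + v n ∈ C) :
    ∃ c, (∀ n, ∀ᶠ t : ℝ in 𝓝 0, c + t • v n ∈ C) ∧ ∀ᶠ t : ℝ in 𝓝 0, c + t • (c - o) ∈ C := by
  have : ∀ (m : ℕ) (x : X), ∃ l : ℝ, 0 < l ∧ l ≤ (1 / 2) ^ m / 4 ∧ dist x (x + l • v m) ≤ 1 * (1 / 2) ^ m := fun m x => by
    have : Tendsto (fun l : ℝ => dist x (x + l • v m)) (𝓝[>] 0) (𝓝 0) :=
      (Continuous.tendsto' (by fun_prop) _ _ (by simp)).mono_left nhdsWithin_le_nhds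
    obtain ⟨l, a, b⟩ := ((this.eventually_le_const (u := 1 * (1 / 2) ^ m) (by positivity)).and
      (Ioc_mem_nhdsGT (show (0 : ℝ) < (1 / 2) ^ m / 4 by positivity))).exists
    exact ⟨l, b.1, b.2, a⟩
  choose f f0 f1 f2 using this
  let s : ℕ → X := fun m => Nat.rec o (fun m x => x + f m x • v m) m
  obtain ⟨c, hc⟩ := cauchySeq_tendsto_of_complete
    (cauchySeq_of_le_geometric (f := s) (1 / 2) 1 (by norm_num) fun m => f2 m (s m))
  have e : ∀ m, s m = o + ∑ k ∈ Finset.range m, f k (s k) • v k := fun m => by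
    induction m with
    | zero => simp [s]
    | succ m ih => rw [Finset.sum_range_succ, ← add_assoc, ← ih]
  have mem : ∀ w : ℕ → ℝ, (∀ k, 0 ≤ w k ∧ w k ≤ 2 * f k (s k)) → ∀ m u, o + u ∈ C →
      o + ∑ k ∈ Finset.range m, w k • v k + (1 / 2 : ℝ) ^ m • u ∈ C := fun w hw m => by
    induction m with
    | zero => simp
    | succ m ih =>
      intro u hu
      have p : (0 : ℝ) < (1 / 2) ^ m := by positivity
      have := c2 hu (c2.add_smul_mem ho (hv m) (t := 2 * w m / (1 / 2) ^ m) ⟨by have := (hw m).1; positivity,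
        (div_le_one p).2 (by linarith [(hw m).2, f1 m (s m)])⟩) one_half_pos.le one_half_pos.le (add_halves 1)
      convert ih ((1 / 2 : ℝ) • u + (w m / (1 / 2) ^ m) • v m) (by convert this using 1; module) using 1
      rw [Finset.sum_range_succ, smul_add, smul_smul, smul_smul, mul_div_cancel₀ _ p.ne', pow_succ]
      abel
  refine ⟨c, fun n => ?_, ?_⟩
  · filter_upwards [Icc_mem_nhds (neg_lt_zero.2 (f0 n (s n))) (f0 n (s n))] with t ht
    refine c1.mem_of_tendsto (hc.add_const _) ((eventually_gt_atTop n).mono fun m hm => ?_)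
    convert mem (fun k => f k (s k) + if k = n then t else 0) (fun k => by
      split_ifs with h
      · subst h; constructor <;> linarith [ht.1, ht.2]
      · constructor <;> linarith [f0 k (s k)]) m 0 (by simpa) using 1
    simp [e m, add_smul, Finset.sum_add_distrib, hm, add_assoc]
  · filter_upwards [Icc_mem_nhds (neg_lt_zero.2 one_pos) one_pos] with t ht
    refine c1.mem_of_tendsto (hc.add ((hc.sub_const o).const_smul t)) (.of_forall fun m => ?_)
    convert mem (fun k => (1 + t) * f k (s k)) (fun k => by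
      constructor <;> nlinarith [ht.1, ht.2, f0 k (s k)]) m 0 (by simpa) using 1
    simp only [mul_smul, ← Finset.smul_sum]
    rw [e m]; module

/-- each colour class of `F` has a convex hull missing `C` -/
def Good (C F : Set X) {k : ℕ} (χ : X → Fin (k + 1)) : Prop := ∀ i, Disjoint C (convexHull ℝ {y ∈ F | χ y = i})

lemma cble {C D : Set X} (c1 : IsClosed C) (c2 : Convex ℝ C) (d2 : Convex ℝ D) (cd : C ⊆ D)
    (h : ¬ ∃ A ⊆ D \ C, A.Infinite ∧ Hides C A) {Y : Set X} (hY : Y.Countable) (y1 : Y ⊆ (D ∩ affineSpan ℝ C) \ C) :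
    ∃ k, ∃ χ : X → Fin (k + 1), Good C Y χ := by
  classical
  rcases C.eq_empty_or_nonempty with rfl | ⟨o, ho⟩
  · exact ⟨0, 0, fun _ => by simp⟩
  have : ∀ y ∈ Y, ∃ T : Finset X, ↑T ⊆ (· -ᵥ o) '' C ∧ y - o ∈ Submodule.span ℝ (T : Set X) := fun y hy =>
    Submodule.mem_span_finite_of_mem_span (by
      rw [← vectorSpan_eq_span_vsub_set_right ℝ ho, ← direction_affineSpan]
      exact AffineSubspace.vsub_mem_direction (y1 hy).1.2 (subset_affineSpan ℝ C ho))
  choose! T T1 T2 using this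
  obtain ⟨v, hv⟩ := ((hY.biUnion fun y _ => (T y).countable_toSet).insert 0).exists_eq_range (insert_nonempty _ _)
  obtain ⟨c, g1, g2⟩ := core c1 c2 ho v fun n => by
    rcases hv ▸ mem_range_self (f := v) n with e | e
    · simpa [e]
    · obtain ⟨y, hy, e⟩ := mem_iUnion₂.1 e
      obtain ⟨z, hz, e⟩ := T1 y hy e
      simpa [← e]
  have sc : ∀ a : ℝ, Tendsto (· * a) (𝓝 0) (𝓝 0) := fun a => Continuous.tendsto' (by fun_prop) _ _ (by simp)
  let V : Submodule ℝ X :=
    { carrier := {w | ∀ᶠ t : ℝ in 𝓝 0, c + t • w ∈ C}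
      zero_mem' := by simpa using g2.self_of_nhds
      smul_mem' := fun a w h => by simpa [mul_smul] using (sc a).eventually h
      add_mem' := fun h h' => by
        filter_upwards [(sc 2).eventually h, (sc 2).eventually h'] with t a b
        convert c2 a b one_half_pos.le one_half_pos.le (add_halves 1) using 1; module }
  have yV : ∀ y ∈ Y, y - c ∈ V := fun y hy => by
    have : Submodule.span ℝ (T y : Set X) ≤ V := Submodule.span_le.2 fun z hz => by
      obtain ⟨n, rfl⟩ : z ∈ range v := hv ▸ .inr (mem_biUnion hy hz)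
      exact g1 n
    simpa using V.sub_mem (this (T2 y hy)) g2
  let φ : V →ᵃ[ℝ] X := AffineMap.const ℝ V c + V.subtype.toAffineMap
  have φ1 : ∀ w, φ w = c + w := fun _ => rfl
  have k1 := c2.affine_preimage φ
  have k2 : Absorbent ℝ (φ ⁻¹' C) := absorbent_iff_eventually_nhdsNE_zero.2 fun w =>
    Eventually.filter_mono nhdsWithin_le_nhds w.2
  have k0 : 0 ∈ φ ⁻¹' C := k2.zero_mem
  have k3 := setOfPred_gauge_lt_one_subset_self k1 k0 k2
  rcases alg (gauge_nonneg (s := φ ⁻¹' C)) (fun c h x => gauge_smul_of_nonneg h x) (gauge_add_le k1 k2)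
    (d2.affine_preimage φ) fun c h => cd (k3 h) with ⟨L, l1, l2⟩ | ⟨a, a1, a2⟩
  · choose l m1 m2 using fun y (hy : y ∈ Y) => l2 ⟨y - c, yV y hy⟩ (by simpa [φ1] using (y1 hy).1.1) (by
      by_contra! g
      have := (c1.preimage (by fun_prop : Continuous fun w : V => c + w)).closure_subset
        (mem_closure_of_gauge_le_one k1 k0 k2 g)
      exact (y1 hy).2 (by simpa using this))
    refine ⟨L.card, fun y => if hy : y ∈ Y then (L.equivFin ⟨l y hy, m1 y hy⟩).castSucc else 0, fun i => ?_⟩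
    rcases eq_empty_or_nonempty {y ∈ Y | _ = i} with e | ⟨y0, h0, e0⟩
    · rw [e]; simp
    refine Disjoint.mono_right (convexHull_min (fun y hy => ?_)
      ((convex_halfSpace_gt (l y0 h0).isLinear 1).affine_image φ)) (disjoint_right.2 ?_)
    · have := hy.2.trans e0.symm
      simp only [hy.1, h0, dite_true, Fin.castSucc_inj, EmbeddingLike.apply_eq_iff_eq, Subtype.mk.injEq] at this
      exact ⟨⟨y - c, yV y hy.1⟩, this ▸ m2 y hy.1, by simp [φ1]⟩
    · rintro _ ⟨w, hw, rfl⟩ hc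
      exact hw.not_ge ((l1 _ (m1 y0 h0) w).trans (gauge_le_one_of_mem hc))
  have a3 : ∀ m n, m ≠ n → (segment ℝ (φ (a m)) (φ (a n)) ∩ C).Nonempty := fun m n ne => by
    wlog h : m < n generalizing m n
    · rw [segment_symm]; exact this n m ne.symm (by omega)
    obtain ⟨z, z1, z2⟩ := a2 m n h
    exact ⟨φ z, image_segment ℝ φ _ _ ▸ mem_image_of_mem φ z1, k3 z2⟩
  have a4 : ∀ n, φ (a n) ∉ C := fun n h => (a1 n).2.not_ge (gauge_le_one_of_mem h)
  refine (h ⟨range fun n => φ (a n), range_subset_iff.2 fun n => ⟨(a1 n).1, a4 n⟩,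
    infinite_range_of_injective fun m n e => by_contra fun ne => a4 n ?_, ?_⟩).elim
  · simpa [show φ (a m) = φ (a n) from e] using a3 m n ne
  · rintro _ ⟨m, rfl⟩ _ ⟨n, rfl⟩ ne
    exact a3 m n fun e => ne (by rw [e])

theorem result {X : Type*} [AddCommGroup X] [Module ℝ X] [MetricSpace X] [CompleteSpace X]
    [IsTopologicalAddGroup X] [ContinuousSMul ℝ X] (C D : Set X) (c1 : IsClosed C) (c2 : Convex ℝ C)
    (_d1 : IsClosed D) (d2 : Convex ℝ D) (cd : C ⊆ D) :
    (¬ ∃ A ⊆ D \ C, A.Infinite ∧ Hides C A) ↔ Polyhedric C (D ∩ affineSpan ℝ C) := by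
  classical
  refine ⟨fun h => ?_, fun h ⟨A, h1, h2, h3⟩ => easy h h1 h2 h3⟩
  set Ω := (D ∩ affineSpan ℝ C) \ C
  have mono : ∀ {F G : Set X} {k} {χ : X → Fin (k + 1)}, F ⊆ G → Good C G χ → Good C F χ := fun s g i =>
    (g i).mono_right (convexHull_mono fun _ h => And.intro (s h.1) h.2)
  obtain ⟨k, hk⟩ : ∃ k, ∀ F : Finset X, ∃ χ : X → Fin (k + 1), Good C (F ∩ Ω) χ := by
    by_contra! H
    choose F hF using H
    obtain ⟨k, χ, g⟩ := cble c1 c2 d2 cd h ((countable_iUnion fun k => (F k).countable_toSet).mono inter_subset_left)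
      (inter_subset_right (s := ⋃ k, (F k : Set X)))
    exact hF k χ (mono (inter_subset_inter_left _ (subset_iUnion (fun k => (F k : Set X)) k)) g)
  choose g hg using hk
  obtain ⟨χ, hχ⟩ := Finset.rado_selection g
  have G : Good C Ω χ := fun i => disjoint_left.2 fun x hx hx' => by
    rw [convexHull_eq_union_convexHull_finite_subsets] at hx'
    simp only [mem_iUnion] at hx'
    obtain ⟨T, hT, hx'⟩ := hx'
    obtain ⟨t, t1, t2⟩ := hχ T
    exact disjoint_left.1 (hg t i) hx (convexHull_mono (fun y hy => And.intro ⟨t1 hy, (hT hy).1⟩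
      (t2 y hy ▸ (hT hy).2)) hx')
  choose H h1 h2 h3 h4 using fun i => exists_convex_convex_compl_subset c2 (convex_convexHull ℝ _) (G i)
  have cv := d2.inter (affineSpan ℝ C).convex
  refine ⟨k + 1, fun i => D ∩ affineSpan ℝ C ∩ H i, subset_antisymm (subset_iInter fun i x hx =>
    ⟨⟨cd hx, subset_affineSpan ℝ C hx⟩, h3 i hx⟩) fun x hx => by_contra fun hc => ?_,
    fun i => ⟨inter_subset_left, cv.inter (h1 i), by rw [sdiff_self_inter]; exact cv.inter (h2 i)⟩⟩
  have := mem_iInter.1 hx (χ x)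
  exact h4 (χ x) (subset_convexHull _ _ ⟨⟨this.1, hc⟩, rfl⟩) this.2

end Pool.Agent.Results.MP_ec84ce_an.Equiv
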